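import Pool.Agent.N370.Jump2

/-!
# Jump-critical posets of every length

Negative answer to Q1 of MP_b5825f_co: jump-critical posets can be arbitrarily long.  For every
`m ≥ 1` the interval order of the intervals `{i}` (`0 ≤ i ≤ m`), `[0, i]` (`0 ≤ i < m`) and `[j, m]`
(`1 ≤ j ≤ m`) is jump-critical; it has length `m`, jump number `2 m` and `3 m + 1` elements.  For
`m ≥ 2` it is neither a disjoint union nor an ordinal sum.
-/

set_option autoImplicit false

namespace Pool.Agent.Results.MP_b5825f_co.EveryLength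

open Pool.Agent.N370.Jump

theorem result :
    -- Q1 is false
    (¬ ∀ (P : Type) [Fintype P] [PartialOrder P], JumpCritical P →
      ¬ ∃ x y z : P, x < y ∧ y < z) ∧
    -- irreducible examples of every length
    (∀ m : ℕ, 1 ≤ m → ∃ (P : Type) (_ : Fintype P) (_ : PartialOrder P),
      JumpCritical P ∧ HasLength P m ∧ Fintype.card P = 3 * m + 1 ∧ jumpNumber P = 2 * m ∧
      (2 ≤ m → ∀ A : Set P, A.Nonempty → Aᶜ.Nonempty →
        (∃ x ∈ A, ∃ y ∉ A, x < y ∨ y < x) ∧ (∃ x ∈ A, ∃ y ∉ A, ¬ x ≤ y ∧ ¬ y ≤ x))) := by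
  constructor
  · intro h
    refine h (El 2) (critical_El (by omega)) ⟨El.p 0, El.p 1, El.p 2, ?_, ?_⟩
    · rw [El.lt_iff]; decide
    · rw [El.lt_iff]; decide
  · intro m hm
    exact ⟨El m, inferInstance, inferInstance, critical_El hm, hasLength_El m, El.card_El m,
      le_antisymm (upper_El_all m) (lower_El m),
      fun h2 A hA hB => ⟨conn_comp A hA hB, conn_incomp h2 A hA hB⟩⟩

end Pool.Agent.Results.MP_b5825f_co.EveryLength
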